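import Pool.Agent.H54.Sym.L1
import Pool.Agent.H91.Sym.A2

/-!
# Project SYM, module L2: convergence of the smoothed measures
-/

set_option autoImplicit false
set_option linter.style.haveILetI false
set_option linter.unusedSectionVars false
set_option linter.unusedVariables false

open MeasureTheory Set Filter Topology
open scoped ContDiff Pointwise

namespace Pool.Agent.H84.Sym

open Pool.Agent.H84

variable {E : Type*} [NormedAddCommGroup E] [InnerProductSpace ℝ E]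
    [FiniteDimensional ℝ E] [MeasurableSpace E] [BorelSpace E]

namespace L2

/-- Normalised standard Gaussian. -/
noncomputable def gs (w : E) : ℝ := (cE E 1)⁻¹ * kern 1 w 0

theorem gs_nonneg (w : E) : 0 ≤ gs w :=
  mul_nonneg (inv_nonneg.2 (cE_pos one_pos).le) (kern_pos _ _ _).le

theorem gs_integral : ∫ w : E, gs w = 1 := by
  unfold gs
  rw [integral_const_mul]
  exact inv_mul_cancel₀ (cE_pos one_pos).ne'

theorem gs_decay : Tendsto (fun x : E =>
    ‖x‖ ^ Module.finrank ℝ E * gs x) (Bornology.cobounded _) (𝓝 0) := by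
  have h1 : Tendsto (fun t : ℝ => t ^ Module.finrank ℝ E *
      Real.exp (-t ^ 2 / (2 * 1 ^ 2))) atTop (𝓝 0) := by
    set d := Module.finrank ℝ E with hd
    have h0 := Real.tendsto_pow_mul_exp_neg_atTop_nhds_zero d
    refine squeeze_zero' ?_ ?_ h0
    · filter_upwards [eventually_ge_atTop (0:ℝ)] with t ht
      positivity
    · filter_upwards [eventually_ge_atTop (2:ℝ)] with t ht
      have h2 : Real.exp (-t ^ 2 / (2 * 1 ^ 2)) ≤ Real.exp (-t) := by
        apply Real.exp_le_exp.2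
        nlinarith
      exact mul_le_mul_of_nonneg_left h2 (by positivity)
  have h2 := (h1.comp (tendsto_norm_cobounded_atTop (E := E))).const_mul
    ((cE E 1)⁻¹)
  rw [mul_zero] at h2
  refine h2.congr fun x => ?_
  simp only [Function.comp, gs, kern, sub_zero]
  ring

theorem kern_scale {δ : ℝ} (hδ : 0 < δ) (x y : E) :
    kern δ x y = kern 1 (δ⁻¹ • (y - x)) 0 := by
  rw [kern, kern, sub_zero, norm_smul, norm_sub_rev, Real.norm_eq_abs, abs_of_pos (by positivity)]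
  congr 1
  field_simp

theorem cE_scale {δ : ℝ} (hδ : 0 < δ) : cE E δ = δ ^ Module.finrank ℝ E * cE E 1 := by
  have h1 : ∀ z : E, kern δ z 0 =
      (fun w => kern 1 w (0 : E)) (δ⁻¹ • z) := by
    intro z
    rw [kern_comm, kern_scale hδ, sub_zero]
  rw [cE, cE]
  simp only [h1]
  have h2 := Measure.integral_comp_smul (volume : Measure E)
    (fun w => kern 1 w (0 : E)) δ⁻¹
  rw [h2, inv_pow, inv_inv, abs_of_pos (by positivity), smul_eq_mul]

theorem tendsto_ZZ {K : Set E} {R : ℝ} (hK : CB K R) {y : E} (hy : y ∉ frontier K) :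
    Tendsto (fun m : ℕ => (cE E (1 / ((m:ℝ) + 1)))⁻¹ *
      ZZ K (1 / ((m:ℝ) + 1)) y) atTop (𝓝 (K.indicator (fun _ => (1:ℝ)) y)) := by
  have hg : Integrable (K.indicator (fun _ => (1:ℝ))) := by
    rw [integrable_indicator_iff hK.meas]
    exact (integrableOn_const_iff (C := (1:ℝ))).2 (Or.inr hK.lt_top)
  have hc : ContinuousAt (K.indicator (fun _ => (1:ℝ))) y := by
    have hy' : y ∈ interior K ∪ interior Kᶜ := by
      rw [← compl_frontier_eq_union_interior]
      exact hy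
    rcases hy' with h | h
    · have he : K.indicator (fun _ => (1:ℝ)) =ᶠ[𝓝 y] fun _ => 1 := by
        filter_upwards [mem_interior_iff_mem_nhds.1 h] with x hx
        exact indicator_of_mem hx _
      exact (continuousAt_congr he).2 continuousAt_const
    · have he : K.indicator (fun _ => (1:ℝ)) =ᶠ[𝓝 y] fun _ => 0 := by
        filter_upwards [mem_interior_iff_mem_nhds.1 h] with x hx
        exact indicator_of_notMem hx _
      exact (continuousAt_congr he).2 continuousAt_const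
  have h := tendsto_integral_comp_smul_smul_of_integrable' (μ := volume) gs_nonneg gs_integral
    gs_decay hg hc
  have h2 : Tendsto (fun m : ℕ => (m:ℝ) + 1) atTop atTop :=
    tendsto_natCast_atTop_atTop.atTop_add tendsto_const_nhds
  refine (h.comp h2).congr fun m => ?_
  simp only [Function.comp]
  set c : ℝ := (m:ℝ) + 1 with hcdef
  have hc0 : 0 < c := by positivity
  have hd0 : 0 < 1 / c := by positivity
  rw [ZZ, ← integral_const_mul, ← integral_indicator hK.meas]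
  congr 1
  ext x
  by_cases hx : x ∈ K
  · rw [indicator_of_mem hx, indicator_of_mem hx, smul_eq_mul, mul_one, cE_scale hd0,
      kern_scale hd0, gs]
    have h3 : (1 / c)⁻¹ = c := by simp
    rw [mul_inv, ← inv_pow, h3]
    ring
  · rw [indicator_of_notMem hx, indicator_of_notMem hx, smul_zero]

variable {K : Set E} {R : ℝ}

theorem continuous_ZZ (hK : CB K R) {ε : ℝ} (hε : 0 < ε) : Continuous (ZZ K ε) := by
  have : ZZ K ε = NN K ε (fun _ => 1) := by
    ext z; exact ZZ_eq_NN z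
  rw [this, continuous_iff_continuousAt]
  exact fun y => (hasFDerivAt_NN hε hK.meas hK.sub (ψ := fun _ => (1:ℝ)) (M := 1)
    measurable_const (fun x _ => by simp) y).continuousAt

theorem exp_neg_PU (hK : CB K R) {ε : ℝ} (hε : 0 < ε) (δ : ℝ) (x : E) :
    Real.exp (-PU K ε δ x) = ZZ K ε x * Real.exp (-(δ * ‖x‖ ^ 2 / 2)) := by
  rw [PU, neg_add, neg_neg, Real.exp_add, Real.exp_log (ZZ_pos hε hK.meas hK.vol0 _)]

theorem ZZ_le (hK : CB K R) {ε : ℝ} (hε : 0 < ε) (y : E) : (cE E ε)⁻¹ * ZZ K ε y ≤ 1 := by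
  have h2 := cE_pos (E := E) hε
  rw [inv_mul_le_iff₀ h2, mul_one, ← ZZ_univ y, ZZ, ZZ]
  exact setIntegral_mono_set (integrable_kern hε y).integrableOn
    (Eventually.of_forall fun x => (kern_pos _ _ _).le) (Eventually.of_forall fun x _ => mem_univ x)

/-- Polynomials are dominated by a Gaussian. -/
theorem pow_le_exp (n : ℕ) {t : ℝ} (ht : 1 ≤ t) :
    t ^ n ≤ 4 ^ n * n.factorial * Real.exp (t ^ 2 / 4) := by
  have h1 : (t ^ 2 / 4) ^ n / n.factorial ≤ Real.exp (t ^ 2 / 4) :=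
    Real.pow_div_factorial_le_exp (t ^ 2 / 4) (by positivity) n
  have h2 : (0:ℝ) < n.factorial := by exact_mod_cast n.factorial_pos
  rw [div_le_iff₀ h2] at h1
  have h3 : t ^ n ≤ (t ^ 2) ^ n := by
    apply pow_le_pow_left₀ (by linarith)
    nlinarith
  have h4 : (t ^ 2) ^ n = 4 ^ n * (t ^ 2 / 4) ^ n := by
    rw [← mul_pow]
    congr 1
    ring
  calc t ^ n ≤ (t ^ 2) ^ n := h3
    _ = 4 ^ n * (t ^ 2 / 4) ^ n := h4
    _ ≤ 4 ^ n * (Real.exp (t ^ 2 / 4) * n.factorial) := by gcongr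
    _ = _ := by ring

/-- Far from the body the smoothed indicator is small, uniformly. -/
theorem ZZ_far (hK : CB K R) (hR : 0 ≤ R) {c : ℝ} (hc : 1 ≤ c) {y : E} (hy : R + 1 ≤ ‖y‖) :
    (cE E (1 / c))⁻¹ * ZZ K (1 / c) y ≤
      (cE E 1)⁻¹ * volume.real K * (4 ^ Module.finrank ℝ E * (Module.finrank ℝ E).factorial) *
        Real.exp (-(‖y‖ - R) ^ 2 / 4) := by
  have hc0 : 0 < c := by linarith
  set n := Module.finrank ℝ E with hn
  have h1 : ∀ x ∈ K, kern (1 / c) x y ≤ Real.exp (-(c ^ 2 / 4)) * Real.exp (-(‖y‖ - R) ^ 2 / 4) := by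
    intro x hx
    have hx' : ‖x‖ ≤ R := by simpa using hK.sub hx
    have h2 : ‖y‖ - R ≤ ‖x - y‖ := by
      have := norm_sub_norm_le y x
      rw [norm_sub_rev] at this
      linarith
    rw [kern, ← Real.exp_add]
    apply Real.exp_le_exp.2
    have h3 : (‖y‖ - R) ^ 2 ≤ ‖x - y‖ ^ 2 := by
      apply pow_le_pow_left₀ (by linarith) h2
    have h4 : 1 ≤ (‖y‖ - R) ^ 2 := by nlinarith
    have h5 : -‖x - y‖ ^ 2 / (2 * (1 / c) ^ 2) = -(c ^ 2 * ‖x - y‖ ^ 2 / 2) := by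
      field_simp
    rw [h5]
    have h6 : 1 ≤ c ^ 2 := by nlinarith
    nlinarith [mul_le_mul_of_nonneg_left h3 (by positivity : 0 ≤ c ^ 2),
      mul_le_mul h6 h4 (by norm_num) (by positivity)]
  have hint : IntegrableOn (fun _ : E => Real.exp (-(c ^ 2 / 4)) * Real.exp (-(‖y‖ - R) ^ 2 / 4)) K :=
    (integrableOn_const_iff).2 (Or.inr hK.lt_top)
  have h7 : ZZ K (1 / c) y ≤ volume.real K *
      (Real.exp (-(c ^ 2 / 4)) * Real.exp (-(‖y‖ - R) ^ 2 / 4)) := by
    rw [ZZ]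
    calc ∫ x in K, kern (1 / c) x y
        ≤ ∫ x in K, Real.exp (-(c ^ 2 / 4)) * Real.exp (-(‖y‖ - R) ^ 2 / 4) :=
          setIntegral_mono_on (integrable_kern (by positivity) y).integrableOn hint hK.meas h1
      _ = _ := by
          rw [setIntegral_const, smul_eq_mul]
  have h8 : (cE E (1 / c))⁻¹ = c ^ n * (cE E 1)⁻¹ := by
    rw [cE_scale (by positivity), mul_inv, ← inv_pow]
    simp [hn]
  have h9 := pow_le_exp n hc
  have h10 : c ^ n * Real.exp (-(c ^ 2 / 4)) ≤ 4 ^ n * n.factorial := by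
    rw [Real.exp_neg, ← div_eq_mul_inv, div_le_iff₀ (Real.exp_pos _)]
    exact h9
  have h11 : 0 < (cE E 1)⁻¹ := inv_pos.2 (cE_pos one_pos)
  rw [h8]
  calc c ^ n * (cE E 1)⁻¹ * ZZ K (1 / c) y
      ≤ c ^ n * (cE E 1)⁻¹ * (volume.real K *
      (Real.exp (-(c ^ 2 / 4)) * Real.exp (-(‖y‖ - R) ^ 2 / 4))) := by gcongr
    _ = (cE E 1)⁻¹ * volume.real K * (c ^ n * Real.exp (-(c ^ 2 / 4))) *
        Real.exp (-(‖y‖ - R) ^ 2 / 4) := by ring
    _ ≤ _ := by gcongr

/-- A uniform Gaussian bound for the normalised smoothed indicator. -/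
theorem ZZ_gauss (hK : CB K R) (hR : 0 ≤ R) : ∃ M : ℝ, 0 < M ∧ ∀ c : ℝ, 1 ≤ c → ∀ y : E,
    (cE E (1 / c))⁻¹ * ZZ K (1 / c) y ≤ M * Real.exp (-(‖y‖ ^ 2 / 8)) := by
  set M1 := (cE E 1)⁻¹ * volume.real K *
    (4 ^ Module.finrank ℝ E * (Module.finrank ℝ E).factorial) with hM1
  have hM10 : 0 ≤ M1 := by
    have : 0 < (cE E 1)⁻¹ := inv_pos.2 (cE_pos one_pos)
    positivity
  refine ⟨M1 * Real.exp (R ^ 2 / 4) + Real.exp ((R + 1) ^ 2 / 8), by positivity, ?_⟩
  intro c hc y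
  have hc0 : 0 < c := by linarith
  by_cases hy : R + 1 ≤ ‖y‖
  · have h1 := ZZ_far hK hR hc hy
    have h2 : Real.exp (-(‖y‖ - R) ^ 2 / 4) ≤ Real.exp (R ^ 2 / 4) * Real.exp (-(‖y‖ ^ 2 / 8)) := by
      rw [← Real.exp_add]
      apply Real.exp_le_exp.2
      nlinarith [sq_nonneg (‖y‖ - 2 * R)]
    calc (cE E (1 / c))⁻¹ * ZZ K (1 / c) y ≤ M1 * Real.exp (-(‖y‖ - R) ^ 2 / 4) := h1
      _ ≤ M1 * (Real.exp (R ^ 2 / 4) * Real.exp (-(‖y‖ ^ 2 / 8))) := by gcongr
      _ ≤ _ := by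
        have : 0 ≤ Real.exp ((R + 1) ^ 2 / 8) * Real.exp (-(‖y‖ ^ 2 / 8)) := by positivity
        nlinarith
  · push Not at hy
    have h1 := ZZ_le hK (ε := 1 / c) (by positivity) y
    have h2 : 1 ≤ Real.exp ((R + 1) ^ 2 / 8) * Real.exp (-(‖y‖ ^ 2 / 8)) := by
      rw [← Real.exp_add]
      apply Real.one_le_exp
      have h3 := norm_nonneg y
      nlinarith
    have h4 : 0 ≤ M1 * Real.exp (R ^ 2 / 4) * Real.exp (-(‖y‖ ^ 2 / 8)) := by positivity
    nlinarith

theorem exp_lin_le (B : ℝ) (s : ℝ) :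
    Real.exp (B * s) * Real.exp (-(s ^ 2 / 8)) ≤ Real.exp (4 * B ^ 2) * Real.exp (-(s ^ 2 / 16)) := by
  rw [← Real.exp_add, ← Real.exp_add]
  apply Real.exp_le_exp.2
  nlinarith [sq_nonneg (s - 8 * B)]

theorem integrable_gauss16 : Integrable (fun x : E => Real.exp (-(‖x‖ ^ 2 / 16))) := by
  have h := integrable_kern (E := E) (δ := Real.sqrt 8) (by positivity) 0
  refine h.congr (Eventually.of_forall fun x => ?_)
  simp only [kern, sub_zero]
  rw [Real.sq_sqrt (by norm_num)]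
  congr 1
  ring

end L2

open L2

theorem PU_tendsto {K : Set E} {R : ℝ} (hK : CB K R) {F : E → ℝ} (hF : Continuous F)
    {A B : ℝ} (hb : ∀ x, |F x| ≤ A * Real.exp (B * ‖x‖)) :
    Tendsto (fun j : ℕ => (cE E (1 / ((j:ℝ) + 1)))⁻¹ *
      ∫ x, F x * Real.exp (-PU K (1 / ((j:ℝ) + 1)) (1 / ((j:ℝ) + 1)) x)) atTop
      (𝓝 (∫ x in K, F x)) := by
  have hR : 0 ≤ R := by
    have h1 : K.Nonempty := by
      by_contra h
      rw [not_nonempty_iff_eq_empty] at h
      exact hK.vol0 (by rw [h]; simp)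
    obtain ⟨x, hx⟩ := h1
    have hx' : ‖x‖ ≤ R := by simpa using hK.sub hx
    exact (norm_nonneg x).trans hx'
  have hA : 0 ≤ A := by
    have h1 := hb 0
    have h2 := abs_nonneg (F 0)
    simp only [norm_zero, mul_zero, Real.exp_zero, mul_one] at h1
    linarith
  have hm0 : ∀ m : ℕ, (0:ℝ) < 1 / ((m:ℝ) + 1) := fun m => by positivity
  obtain ⟨M, hM0, hM⟩ := ZZ_gauss hK hR
  have hlim : ∫ x in K, F x = ∫ x, F x * K.indicator (fun _ => (1:ℝ)) x := by
    rw [← integral_indicator hK.meas]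
    congr 1
    ext x
    by_cases hx : x ∈ K
    · rw [indicator_of_mem hx, indicator_of_mem hx, mul_one]
    · rw [indicator_of_notMem hx, indicator_of_notMem hx, mul_zero]
  rw [hlim]
  have hcong : ∀ m : ℕ, (cE E (1 / ((m:ℝ) + 1)))⁻¹ *
      ∫ x, F x * Real.exp (-PU K (1 / ((m:ℝ) + 1)) (1 / ((m:ℝ) + 1)) x) =
      ∫ x, F x * (((cE E (1 / ((m:ℝ) + 1)))⁻¹ * ZZ K (1 / ((m:ℝ) + 1)) x) *
        Real.exp (-(1 / ((m:ℝ) + 1) * ‖x‖ ^ 2 / 2))) := by
    intro m
    rw [← integral_const_mul]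
    congr 1
    ext x
    rw [exp_neg_PU hK (hm0 m)]
    ring
  simp only [hcong]
  refine tendsto_integral_of_dominated_convergence
    (fun x => A * M * Real.exp (4 * B ^ 2) * Real.exp (-(‖x‖ ^ 2 / 16))) ?_
    (integrable_gauss16.const_mul _) ?_ ?_
  · intro m
    have hcZ := continuous_ZZ hK (hm0 m)
    have : Continuous (fun x : E => F x * (((cE E (1 / ((m:ℝ) + 1)))⁻¹ * ZZ K (1 / ((m:ℝ) + 1)) x) *
        Real.exp (-(1 / ((m:ℝ) + 1) * ‖x‖ ^ 2 / 2)))) := by fun_prop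
    exact this.aestronglyMeasurable
  · intro m
    refine Eventually.of_forall fun x => ?_
    have h1 := hM ((m:ℝ) + 1) (by linarith [Nat.cast_nonneg (α := ℝ) m]) x
    have h2 : 0 ≤ (cE E (1 / ((m:ℝ) + 1)))⁻¹ * ZZ K (1 / ((m:ℝ) + 1)) x := by
      have h3 := ZZ_pos (hm0 m) hK.meas hK.vol0 x
      have h4 := cE_pos (E := E) (hm0 m)
      positivity
    have h5 : Real.exp (-(1 / ((m:ℝ) + 1) * ‖x‖ ^ 2 / 2)) ≤ 1 := by
      rw [Real.exp_le_one_iff]
      have : 0 ≤ 1 / ((m:ℝ) + 1) * ‖x‖ ^ 2 / 2 := by positivity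
      linarith
    rw [norm_mul, norm_mul, Real.norm_eq_abs, Real.norm_eq_abs, Real.norm_eq_abs, abs_of_nonneg h2,
      abs_of_pos (Real.exp_pos _)]
    calc |F x| * ((cE E (1 / ((m:ℝ) + 1)))⁻¹ * ZZ K (1 / ((m:ℝ) + 1)) x *
          Real.exp (-(1 / ((m:ℝ) + 1) * ‖x‖ ^ 2 / 2)))
        ≤ (A * Real.exp (B * ‖x‖)) * ((M * Real.exp (-(‖x‖ ^ 2 / 8))) * 1) := by
          gcongr
          exact hb x
      _ = A * M * (Real.exp (B * ‖x‖) * Real.exp (-(‖x‖ ^ 2 / 8))) := by ring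
      _ ≤ A * M * (Real.exp (4 * B ^ 2) * Real.exp (-(‖x‖ ^ 2 / 16))) := by
          exact mul_le_mul_of_nonneg_left (exp_lin_le B ‖x‖) (by positivity)
      _ = _ := by ring
  · have h1 : ∀ᵐ y : E, y ∉ frontier K := by
      rw [← measure_eq_zero_iff_ae_notMem]
      exact hK.conv.addHaar_frontier volume
    filter_upwards [h1] with x hx
    have h2 := tendsto_ZZ hK hx
    have h3 : Tendsto (fun m : ℕ => Real.exp (-(1 / ((m:ℝ) + 1) * ‖x‖ ^ 2 / 2))) atTop (𝓝 1) := by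
      have h4 : Tendsto (fun m : ℕ => 1 / ((m:ℝ) + 1)) atTop (𝓝 0) :=
        tendsto_one_div_add_atTop_nhds_zero_nat
      have h5 : Tendsto (fun m : ℕ => -(1 / ((m:ℝ) + 1) * ‖x‖ ^ 2 / 2)) atTop (𝓝 (-(0 * ‖x‖ ^ 2 / 2))) :=
        ((h4.mul_const _).div_const _).neg
      have h6 := (Real.continuous_exp.tendsto _).comp h5
      have h7 : Real.exp (-(0 * ‖x‖ ^ 2 / 2)) = 1 := by simp
      rw [h7] at h6
      exact h6
    have h7 := (h2.mul h3).const_mul (F x)
    rwa [mul_one] at h7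

theorem approx {K : Set E} {R : ℝ} (hK : CB K R) : ∃ U : ℕ → E → ℝ,
    (∀ j, ∃ t C : ℝ, Pot (U j) t C) ∧ (∀ j, IsProbabilityMeasure (mu (U j))) ∧
    (∀ g : E ≃ₗᵢ[ℝ] E, g '' K = K → ∀ j x, U j (g x) = U j x) ∧
    ∀ F : E → ℝ, Continuous F → (∃ A B : ℝ, ∀ x, |F x| ≤ A * Real.exp (B * ‖x‖)) →
      Tendsto (fun j => ∫ x, F x ∂(mu (U j))) atTop (𝓝 ((∫ x in K, F x) / volume.real K)) := by
  have hm0 : ∀ m : ℕ, (0:ℝ) < 1 / ((m:ℝ) + 1) := fun m => by positivity
  set P : ℕ → E → ℝ := fun j => PU K (1 / ((j:ℝ) + 1)) (1 / ((j:ℝ) + 1)) with hP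
  have hPot : ∀ j, ∃ C : ℝ, Pot (P j) (1 / ((j:ℝ) + 1)) C := fun j => PU_pot hK (hm0 j) (hm0 j)
  have hPc : ∀ j, Continuous (P j) := fun j => by
    obtain ⟨C, hC⟩ := hPot j
    exact hC.smooth.continuous
  have hfin : ∀ j, IsFiniteMeasure (mu (P j)) := fun j => by
    obtain ⟨C, hC⟩ := hPot j
    exact isFinite_mu hC
  set N : ℕ → ℝ := fun j => (mu (P j)).real univ with hN
  have hN0 : ∀ j, 0 < N j := fun j => mu_univ_pos (hPc j) (hfin j)
  have hNint : ∀ j, N j = ∫ x, Real.exp (-P j x) := by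
    intro j
    have h1 := integral_mu (hPc j) (fun _ => (1:ℝ))
    simp only [one_mul] at h1
    rw [← h1]
    simp [hN]
  set U : ℕ → E → ℝ := fun j x => P j x + Real.log (N j) with hU
  have hfU : ∀ j, fderiv ℝ (U j) = fderiv ℝ (P j) := by
    intro j
    ext x : 1
    rw [hU]
    exact fderiv_add_const _
  have hUc : ∀ j, Continuous (U j) := fun j => (hPc j).add continuous_const
  have hexp : ∀ j x, Real.exp (-U j x) = (N j)⁻¹ * Real.exp (-P j x) := by
    intro j x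
    simp only [hU]
    rw [neg_add, Real.exp_add, Real.exp_neg (Real.log (N j)), Real.exp_log (hN0 j)]
    ring
  have hmu : ∀ j (F : E → ℝ), ∫ x, F x ∂(mu (U j)) = (N j)⁻¹ * ∫ x, F x * Real.exp (-P j x) := by
    intro j F
    rw [integral_mu (hUc j), ← integral_const_mul]
    congr 1
    ext x
    rw [hexp]
    ring
  have hUpot : ∀ j, ∃ t C : ℝ, Pot (U j) t C := by
    intro j
    obtain ⟨C, hC⟩ := hPot j
    refine ⟨1 / ((j:ℝ) + 1), C, hC.smooth.add contDiff_const, hC.pos, ?_, ?_⟩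
    · intro x v
      rw [hfU]
      exact hC.hess x v
    · intro x
      rw [hfU]
      exact hC.grad x
  refine ⟨U, hUpot, ?_, ?_, ?_⟩
  · intro j
    obtain ⟨t, C, hC⟩ := hUpot j
    haveI := isFinite_mu hC
    have h1 : (mu (U j)).real univ = 1 := by
      have h2 := hmu j (fun _ => 1)
      simp only [one_mul] at h2
      rw [← hNint, inv_mul_cancel₀ (hN0 j).ne'] at h2
      simpa using h2
    constructor
    have h3 : (mu (U j)) univ ≠ ⊤ := measure_ne_top _ _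
    rw [Measure.real] at h1
    rw [← ENNReal.ofReal_toReal h3, h1, ENNReal.ofReal_one]
  · intro g hg j x
    simp only [hU, hP]
    rw [PU_inv hK (hm0 j) _ g hg]
  · intro F hF hb
    obtain ⟨A, B, hb⟩ := hb
    have h1 := PU_tendsto hK hF hb
    have h2 := PU_tendsto hK (F := fun _ => (1:ℝ)) continuous_const (A := 1) (B := 0)
      (fun x => by simp)
    have h3 : (∫ x in K, (1:ℝ)) = volume.real K := by
      simp
    rw [h3] at h2
    have hv : volume.real K ≠ 0 := by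
      rw [Measure.real]
      exact (ENNReal.toReal_pos hK.vol0 hK.lt_top.ne).ne'
    refine (h1.div h2 hv).congr fun j => ?_
    rw [hmu j, hNint j]
    have h4 : (cE E (1 / ((j:ℝ) + 1)))⁻¹ ≠ 0 := (inv_pos.2 (cE_pos (hm0 j))).ne'
    simp only [one_mul, Pi.div_apply]
    rw [mul_div_mul_left _ _ h4, div_eq_inv_mul]

end Pool.Agent.H84.Sym
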