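import Pool.Agent.H84.Sym.Defs

/-!
# Project SYM, module L1: the smoothed potentials
-/

set_option autoImplicit false
set_option linter.style.haveILetI false
set_option linter.unusedSectionVars false
set_option linter.unusedVariables false

open MeasureTheory Set Filter Topology
open scoped ContDiff Pointwise

namespace Pool.Agent.H84.Sym

open Pool.Agent.H84

variable {E : Type*} [NormedAddCommGroup E] [InnerProductSpace ℝ E]
    [FiniteDimensional ℝ E] [MeasurableSpace E] [BorelSpace E]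

/-- The smoothed potential. -/
noncomputable def PU (K : Set E) (ε δ : ℝ) (x : E) : ℝ := -Real.log (ZZ K ε x) + δ * ‖x‖ ^ 2 / 2

namespace L1

variable {K : Set E} {R ε δ : ℝ}

/-- Derivative of `- log Z`. -/
theorem hasFDerivAt_negLog (hε : 0 < ε) (hK : CB K R) (y : E) :
    HasFDerivAt (fun y => -Real.log (ZZ K ε y)) (-((ZZ K ε y)⁻¹ • DNN K ε (fun _ => 1) y)) y := by
  have h2 := hasFDerivAt_NN hε hK.meas hK.sub (ψ := fun _ => (1:ℝ)) (M := 1) measurable_const
    (fun x _ => by simp) y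
  have hZ := ZZ_pos hε hK.meas hK.vol0 y
  have h2' : HasFDerivAt (ZZ K ε) (DNN K ε (fun _ => 1) y) y := by
    have : ZZ K ε = NN K ε (fun _ => 1) := by ext z; exact ZZ_eq_NN z
    rwa [this]
  exact (h2'.log hZ.ne').neg

theorem bm_inner (hK : CB K R) (v : E) : BM K (fun x => inner ℝ x v) :=
  hK.bm_of_cont (by fun_prop)

theorem negLog_apply (hε : 0 < ε) (hK : CB K R) (y v : E) :
    (-((ZZ K ε y)⁻¹ • DNN K ε (fun _ => 1) y)) v =
      -((ε ^ 2)⁻¹ * (avg K ε (fun x => inner ℝ x v) y - inner ℝ y v)) := by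
  haveI := isProb_PP hε hK.meas hK.vol0 y
  have hZ := ZZ_pos hε hK.meas hK.vol0 y
  have h0 := DNN_apply hε hK.meas hK.sub (ψ := fun _ => (1:ℝ)) (M := 1) measurable_const
    (fun x _ => by simp) y v
  have h1 : ∫ x, inner ℝ (x - y) v ∂(PP K ε y) =
      (∫ x, inner ℝ x v ∂(PP K ε y)) - inner ℝ y v := by
    have e : ∀ x : E, inner ℝ (x - y) v = inner ℝ x v - inner ℝ y v := fun x => inner_sub_left _ _ _
    simp only [e]
    rw [integral_sub ((bm_inner hK v).integrable_PP hε hK y) (integrable_const _)]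
    simp
  rw [integral_PP hε hK.meas hK.vol0, integral_PP hε hK.meas hK.vol0] at h1
  rw [← h1]
  simp only [neg_apply, smul_apply, smul_eq_mul]
  rw [h0, avg, NN]
  simp only [one_mul]
  field_simp

/-- `- log Z`. -/
noncomputable def NL (K : Set E) (ε : ℝ) (y : E) : ℝ := -Real.log (ZZ K ε y)

theorem fderiv_NL (hε : 0 < ε) (hK : CB K R) (y v : E) :
    fderiv ℝ (NL K ε) y v =
      -((ε ^ 2)⁻¹ * (avg K ε (fun z => inner ℝ z v) y - inner ℝ y v)) := by
  have h := hasFDerivAt_negLog hε hK y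
  have h' : fderiv ℝ (NL K ε) y = _ := h.fderiv
  rw [h']
  exact negLog_apply hε hK y v

theorem differentiable_NL (hε : 0 < ε) (hK : CB K R) : Differentiable ℝ (NL K ε) := by
  intro x
  exact (hasFDerivAt_negLog hε hK x).differentiableAt

theorem contDiff_avg_inner (hε : 0 < ε) (hK : CB K R) (w : E) :
    ContDiff ℝ 1 (avg K ε (fun z => inner ℝ z w)) := by
  obtain ⟨h1, M, hM⟩ := bm_inner hK w
  exact contDiff_avg hε hK.meas hK.sub hK.vol0 h1 hM

theorem contDiff_NL (hε : 0 < ε) (hK : CB K R) : ContDiff ℝ 2 (NL K ε) := by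
  have : ((1 : WithTop ℕ∞) + 1) = 2 := by norm_num
  rw [← this, contDiff_succ_iff_fderiv_apply]
  refine ⟨differentiable_NL hε hK, by simp, fun v => ?_⟩
  have h : (fun x => fderiv ℝ (NL K ε) x v) = fun x => -((ε ^ 2)⁻¹ *
      (avg K ε (fun z => inner ℝ z v) x - inner ℝ x v)) := by
    ext x
    exact fderiv_NL hε hK x v
  rw [h]
  refine (contDiff_const.mul ((contDiff_avg_inner hε hK _).sub ?_)).neg
  exact contDiff_id.inner ℝ contDiff_const

theorem hess_NL (hε : 0 < ε) (hK : CB K R) (y w : E) :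
    0 ≤ fderiv ℝ (fun x => fderiv ℝ (NL K ε) x w) y w := by
  have h : (fun x => fderiv ℝ (NL K ε) x w) = fun x => -((ε ^ 2)⁻¹ *
      (avg K ε (fun z => inner ℝ z w) x - inner ℝ x w)) := by
    ext x
    exact fderiv_NL hε hK x w
  obtain ⟨m1, M, hM⟩ := bm_inner hK w
  have hA : HasFDerivAt (avg K ε (fun z => inner ℝ z w))
        (fderiv ℝ (avg K ε (fun z => inner ℝ z w)) y) y :=
      (((contDiff_avg hε hK.meas hK.sub hK.vol0 m1 hM).differentiable one_ne_zero) y).hasFDerivAt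
  have hB : HasFDerivAt (fun x : E => (inner ℝ x w : ℝ)) (innerSL ℝ w) y := by
    have e : (fun x : E => (inner ℝ x w : ℝ)) = fun x => innerSL ℝ w x := by
      ext z
      rw [innerSL_apply_apply, real_inner_comm]
    rw [e]
    exact (innerSL ℝ w).hasFDerivAt
  have hC := ((hA.sub hB).const_mul ((ε ^ 2)⁻¹)).neg
  have hD : fderiv ℝ (fun x => fderiv ℝ (NL K ε) x w) y = -((ε ^ 2)⁻¹ •
      ((fderiv ℝ (avg K ε (fun z => inner ℝ z w)) y) - (innerSL ℝ w))) := by
    rw [h]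
    exact hC.fderiv
  rw [hD]
  simp only [neg_apply, smul_apply, sub_apply, smul_eq_mul]
  rw [fderiv_avg_apply hε hK.meas hK.sub hK.vol0 m1 hM, innerSL_apply_apply]
  haveI := isProb_PP hε hK.meas hK.vol0 y
  have hvar := var_inner_le hε hK.conv hK.meas hK.sub hK.vol0 y w
  have hL2 := memLp_inner hε hK.meas hK.sub hK.vol0 y w
  have i1 : Integrable (fun z : E => inner ℝ (z - y) w) (PP K ε y) :=
    hL2.integrable (by norm_num)
  have e0 : ∀ z : E, inner ℝ z w = inner ℝ (z - y) w + inner ℝ y w := by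
    intro z; rw [inner_sub_left]; ring
  have e1 : ∫ z, inner ℝ z w * inner ℝ (z - y) w ∂(PP K ε y) =
      (∫ z, (inner ℝ (z - y) w) ^ 2 ∂(PP K ε y)) + inner ℝ y w * ∫ z, inner ℝ (z - y) w ∂(PP K ε y) := by
    rw [← integral_const_mul, ← integral_add hL2.integrable_sq (i1.const_mul _)]
    congr 1
    ext z
    rw [e0 z]
    ring
  have e2 : ∫ z, inner ℝ z w ∂(PP K ε y) = (∫ z, inner ℝ (z - y) w ∂(PP K ε y)) + inner ℝ y w := by
    have : ∫ z, inner ℝ z w ∂(PP K ε y) = ∫ z, (inner ℝ (z - y) w + inner ℝ y w) ∂(PP K ε y) := by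
      congr 1
      ext z
      exact e0 z
    rw [this, integral_add i1 (integrable_const _)]
    simp
  rw [e1, e2]
  set V := ∫ z, (inner ℝ (z - y) w) ^ 2 ∂(PP K ε y)
  set m := ∫ z, inner ℝ (z - y) w ∂(PP K ε y)
  have h3 : V + inner ℝ y w * m - (m + inner ℝ y w) * m = V - m ^ 2 := by ring
  rw [h3, real_inner_self_eq_norm_sq]
  have h4 : (ε ^ 2)⁻¹ * (V - m ^ 2) ≤ ‖w‖ ^ 2 := by
    rw [inv_mul_le_iff₀ (by positivity)]
    linarith
  have h5 : 0 < (ε ^ 2)⁻¹ := by positivity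
  nlinarith

/-- The quadratic part. -/
noncomputable def QP (δ : ℝ) (x : E) : ℝ := δ * ‖x‖ ^ 2 / 2

theorem PU_eq (K : Set E) (ε δ : ℝ) : PU K ε δ = fun x => NL K ε x + QP δ x := rfl

theorem contDiff_QP (δ : ℝ) : ContDiff ℝ ∞ (QP (E := E) δ) := by
  unfold QP
  exact (contDiff_const.mul (contDiff_norm_sq ℝ)).div_const _

theorem hasFDerivAt_QP (δ : ℝ) (x : E) : HasFDerivAt (QP (E := E) δ) (δ • innerSL ℝ x) x := by
  have h1 : HasFDerivAt (fun y : E => ‖y‖ ^ 2) (2 • (innerSL ℝ x)) x := by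
    have := (hasFDerivAt_id (𝕜 := ℝ) x).norm_sq
    simpa using this
  have h2 := (h1.const_mul δ).mul_const (2⁻¹ : ℝ)
  have e : (QP (E := E) δ) = fun y => δ * ‖y‖ ^ 2 * 2⁻¹ := by
    ext y; rw [QP, div_eq_mul_inv]
  rw [e]
  refine h2.congr_fderiv ?_
  ext v
  simp only [smul_apply, innerSL_apply_apply, smul_eq_mul, nsmul_eq_mul]
  push_cast
  ring

theorem fderiv_QP (δ : ℝ) (x v : E) : fderiv ℝ (QP (E := E) δ) x v = δ * inner ℝ x v := by
  rw [(hasFDerivAt_QP δ x).fderiv]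
  simp

theorem second_apply {U : E → ℝ} (hU : ContDiff ℝ 2 U) (x v : E) :
    fderiv ℝ (fderiv ℝ U) x v v = fderiv ℝ (fun y => fderiv ℝ U y v) x v := by
  have h1 : Differentiable ℝ (fderiv ℝ U) :=
    (hU.fderiv_right (m := 1) (by norm_num)).differentiable one_ne_zero
  rw [fderiv_clm_apply (h1 x) (differentiableAt_const v)]
  simp

end L1

open L1 in
theorem PU_pot {K : Set E} {R ε δ : ℝ} (hK : CB K R) (hε : 0 < ε) (hδ : 0 < δ) :
    ∃ C : ℝ, Pot (PU K ε δ) δ C := by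
  have hs : ContDiff ℝ 2 (PU K ε δ) := by
    rw [PU_eq]
    exact (contDiff_NL hε hK).add (contDiff_infty.1 (contDiff_QP δ) 2)
  have hNd := differentiable_NL hε hK
  have hQd : Differentiable ℝ (QP (E := E) δ) := (contDiff_QP δ).differentiable (by simp)
  have hfd : ∀ x v : E, fderiv ℝ (PU K ε δ) x v = fderiv ℝ (NL K ε) x v + δ * inner ℝ x v := by
    intro x v
    rw [PU_eq, fderiv_fun_add (hNd x) (hQd x), add_apply, fderiv_QP]
  refine ⟨(ε ^ 2)⁻¹ * (|R| + 1) + δ, hs, hδ, ?_, ?_⟩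
  · intro x v
    rw [second_apply hs]
    have e : (fun y => fderiv ℝ (PU K ε δ) y v) =
        fun y => fderiv ℝ (NL K ε) y v + δ * inner ℝ y v := by
      ext y; exact hfd y v
    have hd1 : DifferentiableAt ℝ (fun y => fderiv ℝ (NL K ε) y v) x := by
      have h1 : ContDiff ℝ 1 (fun y => fderiv ℝ (NL K ε) y v) :=
        ((contDiff_NL hε hK).fderiv_right (m := 1) (by norm_num)).clm_apply contDiff_const
      exact (h1.differentiable one_ne_zero) x
    have hB : HasFDerivAt (fun y : E => δ * (inner ℝ y v : ℝ)) (δ • innerSL ℝ v) x := by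
      have e : (fun y : E => (inner ℝ y v : ℝ)) = fun y => innerSL ℝ v y := by
        ext z
        rw [innerSL_apply_apply, real_inner_comm]
      have h2 : HasFDerivAt (fun y : E => (inner ℝ y v : ℝ)) (innerSL ℝ v) x := by
        rw [e]
        exact (innerSL ℝ v).hasFDerivAt
      exact h2.const_mul δ
    rw [e, fderiv_fun_add hd1 hB.differentiableAt, add_apply, hB.fderiv]
    have h3 := hess_NL hε hK x v
    simp only [smul_apply, innerSL_apply_apply, smul_eq_mul, real_inner_self_eq_norm_sq]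
    linarith
  · intro x
    have hc : 0 ≤ (ε ^ 2)⁻¹ * (|R| + 1) + δ := by positivity
    apply ContinuousLinearMap.opNorm_le_bound _ (by positivity)
    intro v
    rw [hfd, fderiv_NL hε hK, Real.norm_eq_abs]
    have h1 : |avg K ε (fun z => inner ℝ z v) x| ≤ |R| * ‖v‖ := by
      apply abs_avg_le hε hK.meas hK.vol0
      intro z hz
      refine (abs_real_inner_le_norm _ _).trans ?_
      have hz' : ‖z‖ ≤ R := by simpa using hK.sub hz
      exact mul_le_mul_of_nonneg_right (hz'.trans (le_abs_self R)) (norm_nonneg _)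
    have h2 : |(inner ℝ x v : ℝ)| ≤ ‖x‖ * ‖v‖ := abs_real_inner_le_norm _ _
    have h3 : 0 < (ε ^ 2)⁻¹ := by positivity
    calc |-((ε ^ 2)⁻¹ * (avg K ε (fun z => inner ℝ z v) x - inner ℝ x v)) + δ * inner ℝ x v|
        ≤ |(ε ^ 2)⁻¹ * (avg K ε (fun z => inner ℝ z v) x - inner ℝ x v)| + |δ * inner ℝ x v| := by
          refine (abs_add_le _ _).trans ?_
          rw [abs_neg]
      _ ≤ (ε ^ 2)⁻¹ * (|R| * ‖v‖ + ‖x‖ * ‖v‖) + δ * (‖x‖ * ‖v‖) := by
          rw [abs_mul, abs_mul, abs_of_pos h3, abs_of_pos hδ]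
          gcongr
          exact (abs_sub _ _).trans (add_le_add h1 h2)
      _ ≤ ((ε ^ 2)⁻¹ * (|R| + 1) + δ) * (1 + ‖x‖) * ‖v‖ := by
          have h4 := norm_nonneg x
          have h5 := norm_nonneg v
          have h6 := abs_nonneg R
          have : ((ε ^ 2)⁻¹ * (|R| + 1) + δ) * (1 + ‖x‖) * ‖v‖ -
              ((ε ^ 2)⁻¹ * (|R| * ‖v‖ + ‖x‖ * ‖v‖) + δ * (‖x‖ * ‖v‖)) =
              (ε ^ 2)⁻¹ * ‖v‖ * (1 + |R| * ‖x‖) + δ * ‖v‖ := by ring
          have h7 : 0 ≤ (ε ^ 2)⁻¹ * ‖v‖ * (1 + |R| * ‖x‖) + δ * ‖v‖ := by positivity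
          linarith

theorem PU_inv {K : Set E} {R ε : ℝ} (hK : CB K R) (hε : 0 < ε) (δ : ℝ) (g : E ≃ₗᵢ[ℝ] E)
    (hg : g '' K = K) (x : E) : PU K ε δ (g x) = PU K ε δ x := by
  have hmp : MeasurePreserving (g : E → E) volume volume := g.measurePreserving
  have hpre : (g : E → E) ⁻¹' K = K := by
    conv_lhs => rw [← hg]
    exact Set.preimage_image_eq K g.injective
  have h1 := hmp.setIntegral_preimage_emb g.toHomeomorph.measurableEmbedding
    (fun z => kern ε z (g x)) K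
  rw [hpre] at h1
  have h2 : ZZ K ε (g x) = ZZ K ε x := by
    rw [ZZ, ← h1, ZZ]
    congr 1
    ext z
    rw [kern, kern, ← map_sub, LinearIsometryEquiv.norm_map]
  rw [PU, PU, h2, LinearIsometryEquiv.norm_map]

end Pool.Agent.H84.Sym
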